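import Pool.Agent.MGP.Stmts

/-!
# MGP, row JMP: `f v = f (v+2)` for odd `v` in `[N-1, N+E]`
-/

set_option autoImplicit false

namespace Pool.Agent.MGP.H7

/-- the class of `N + x` is zero for small `x` -/
theorem cl_zero {N x : ℕ} (h : x ^ 2 < 2 * N) : cl N (N + x) = 0 := by
  unfold cl
  rw [Nat.add_sub_cancel_left]
  apply Nat.div_eq_of_lt
  omega

/-- **JMP**. -/
theorem jmp (hPRB : PrbStmt) (hMON : MonStmt) (hVAR : VarStmt) (hCLS : ClsStmt)
    (hCTR : CtrStmt) (hRCT : RctStmt) (hGOD : GodStmt) : JmpStmt := by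
  intro G _ f N z H E κ hf hF hP v hv hNv hvE
  obtain ⟨h34, -, -, -⟩ := hPRB N z H E hP
  obtain ⟨hNe, hz1, hzN, -, -, hH, h500⟩ := id hP
  have hzz : z ≤ z ^ 2 := by nlinarith
  have hN2 : 2 ≤ N := by omega
  have hσe : Even (v + 1) := hv.add_one
  obtain ⟨r, c, hr, hc, h1, h2, h3, h4, h5, h6, e1, e2, e3⟩ :=
    hGOD N z H E (v + 1) hP hσe hNv (by omega)
  have x1 : (r + 22) * c = r * c + 22 * c := by ring
  have x2 : (r + 20) * (c + 2) = r * c + 2 * r + 20 * c + 40 := by ring
  have x3 : (r + 2) * (c + 40) = r * c + 40 * r + 2 * c + 80 := by ring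
  have x4 : r * (c + 42) = r * c + 42 * r := by ring
  have x5 : (r + 22) * (c + 40) = r * c + 40 * r + 22 * c + 880 := by ring
  have x6 : (r + 20) * (c + 42) = r * c + 42 * r + 20 * c + 840 := by ring
  have x7 : (r + 2) * c = r * c + 2 * c := by ring
  have x8 : r * (c + 2) = r * c + 2 * r := by ring
  have hc2 : Odd (c + 2) := by
    have := hc.add_even (by decide : Even 2)
    exact this
  have hc40 : Odd (c + 40) := hc.add_even (by decide : Even 40)
  have hc42 : Odd (c + 42) := hc.add_even (by decide : Even 42)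
  have hr2 : Odd (r + 2) := hr.add_even (by decide : Even 2)
  have hr20 : Odd (r + 20) := hr.add_even (by decide : Even 20)
  have hr22 : Odd (r + 22) := hr.add_even (by decide : Even 22)
  have cls := hCLS G f N κ hf hF hNe hN2
  have g1 := cls _ _ (hr22.mul hc) (hr20.mul hc2) (by omega) (by omega) e1
  have g2 := cls _ _ (hr2.mul hc40) (hr.mul hc42) (by omega) (by omega) e2
  have g3 := cls _ _ (hr22.mul hc40) (hr20.mul hc42) (by omega) (by omega) e3
  have hT := hRCT G f hf r c hr hc g1 g2 g3
  have hTo' : Odd ((r + 2) * c) := hr2.mul hc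
  have hTo : Odd (r * (c + 2)) := hr.mul hc2
  obtain ⟨T', hT'⟩ : ∃ T', T' = (r + 2) * c := ⟨_, rfl⟩
  obtain ⟨T, hTT⟩ : ∃ T, T = r * (c + 2) := ⟨_, rfl⟩
  rw [← hT'] at h1 h4 hT hTo'
  rw [← hTT] at h2 h3 hT hTo
  have hHz : (34000 * H) ^ 2 ≤ N := (Nat.pow_le_pow_left h34 2).trans hzN
  have hmul : (34000 * H) ^ 2 = 1156000000 * (H * H) := by ring
  have hHH : 1000 * H ≤ H * H := Nat.mul_le_mul_right H hH
  by_cases hNlt : N ≤ v
  · have hNv' : N < v := by
      rcases Nat.lt_or_ge N v with h | h
      · exact h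
      · have : v = N := by omega
        subst this
        exact absurd hNe (Nat.not_even_iff_odd.2 hv)
    have hv2 : Odd (v + 2) := hv.add_even (by decide : Even 2)
    by_cases hcl : cl N v = cl N (v + 2)
    · exact cls v (v + 2) hv hv2 hNv' (by omega) hcl
    · have hm := hMON N v (v + 2) (by omega) (by omega) (by omega)
      have hlt : 1 ≤ cl N (v + 2) := by omega
      have hbig : 2 * (v + 2) ≤ (v + 2 - N) ^ 2 := by
        unfold cl at hlt
        have := (Nat.one_le_div_iff (by omega)).1 hlt
        exact this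
      have hfar : 34000 * H < v + 2 - N := by
        by_contra hcon
        have := Nat.pow_le_pow_left (not_lt.1 hcon) 2
        omega
      have hvar := hVAR N T' T (by omega) (by omega) (by omega) (by
        have k1 : T - T' ≤ 80 * H := by omega
        have k2 : T - N ≤ E + 70 * z := by omega
        have k3 : (T - T') * (T - N) ≤ 80 * H * (E + 70 * z) := Nat.mul_le_mul k1 k2
        have k4 : 0 < H * (E + 70 * z) := Nat.mul_pos (by omega) (by omega)
        have k5 : 80 * H * (E + 70 * z) = 80 * (H * (E + 70 * z)) := by ring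
        have k6 : 500 * H * (E + 70 * z) = 500 * (H * (E + 70 * z)) := by ring
        omega)
      have m1 := hMON N T' v (by omega) (by omega) (by omega)
      have m2 := hMON N (v + 2) T (by omega) (by omega) (by omega)
      have c1 : cl N T' = cl N v := by omega
      have c2 : cl N (v + 2) = cl N T := by omega
      have f1 := cls T' v hTo' hv (by omega) (by omega) c1
      have f2 := cls (v + 2) T hv2 hTo (by omega) (by omega) c2
      rw [← f1, hT, f2]
  · have hvN : N = v + 1 := by omega
    have hsmall : ∀ x, x ≤ 40 * H → x ^ 2 + 1 < 2 * N := by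
      intro x hx
      have := Nat.pow_le_pow_left hx 2
      have h7 : (40 * H) ^ 2 = 1600 * (H * H) := by ring
      omega
    have hN1 : Odd (N + 1) := hNe.add_one
    obtain ⟨b, hb⟩ : ∃ b, T = N + b := ⟨T - N, by omega⟩
    have hb40 : b ≤ 40 * H := by omega
    have k1 : f (N + 1) = f T := by
      apply cls (N + 1) T hN1 hTo (by omega) (by omega)
      rw [hb, cl_zero (by have := hsmall 1 (by omega); omega),
        cl_zero (by have := hsmall b hb40; omega)]
    obtain ⟨b', hb'⟩ : ∃ b', N = T' + b' := ⟨N - T', by omega⟩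
    have hb'40 : b' ≤ 40 * H := by omega
    have hb'o : Odd b' := by
      have h8 : Even (T' + b') := hb' ▸ hNe
      rcases Nat.even_or_odd b' with h9 | h9
      · exact absurd h8 (Nat.not_even_iff_odd.2 (hTo'.add_even h9))
      · exact h9
    have hNb' : Odd (N + b') := hNe.add_odd hb'o
    have k2 : f (N + 1) = f (N + b') := by
      apply cls (N + 1) (N + b') hN1 hNb' (by omega)
      · have := hb'o.pos
        omega
      rw [cl_zero (by have := hsmall 1 (by omega); omega),
        cl_zero (by have := hsmall b' hb'40; omega)]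
    have k3 := hCTR G f N κ hf hF hNe hN2 b' hb'o (hsmall b' hb'40)
    have k4 := hCTR G f N κ hf hF hNe hN2 1 odd_one (hsmall 1 (by omega))
    have e4 : N - b' = T' := by omega
    have e5 : N - 1 = v := by omega
    have e6 : v + 2 = N + 1 := by omega
    rw [e4, ← k2] at k3
    rw [e5] at k4
    have k5 : f T' = f v := mul_right_cancel (k3.trans k4.symm)
    rw [e6, k1, ← hT, k5]

end Pool.Agent.MGP.H7
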